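import Pool.Agent.Work.MP_91aed7_am.Interface

/-! DEV: devissage. -/

set_option autoImplicit false

namespace Pool.AM

namespace DEV_

/-- classes of (module, endomorphism) -/
abbrev Cls (R : Type) [CommRing R] : Type 1 :=
  ∀ (P : Type) [AddCommGroup P] [Module R P], (P →ₗ[R] P) → Prop

structure Good {R : Type} [CommRing R] (U : Cls R) : Prop where
  fp : ∀ {P : Type} [AddCommGroup P] [Module R P] {ν : P →ₗ[R] P}, U P ν →
    Module.Finite R P ∧ Module.Projective R P
  zero : ∀ (P : Type) [AddCommGroup P] [Module R P], Module.Finite R P → Module.Projective R P →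
    U P (0 : P →ₗ[R] P)
  ext : ∀ {P' P P'' : Type} [AddCommGroup P'] [Module R P'] [AddCommGroup P] [Module R P]
    [AddCommGroup P''] [Module R P''] {ν' : P' →ₗ[R] P'} {ν : P →ₗ[R] P} {ν'' : P'' →ₗ[R] P''}
    {j : P' →ₗ[R] P} {q : P →ₗ[R] P''}, Ex ν' ν ν'' j q → U P' ν' → U P'' ν'' → U P ν
  ker : ∀ {P' P P'' : Type} [AddCommGroup P'] [Module R P'] [AddCommGroup P] [Module R P]
    [AddCommGroup P''] [Module R P''] {ν' : P' →ₗ[R] P'} {ν : P →ₗ[R] P} {ν'' : P'' →ₗ[R] P''}
    {j : P' →ₗ[R] P} {q : P →ₗ[R] P''}, Ex ν' ν ν'' j q → U P ν → U P'' ν'' → U P' ν'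
  coker : ∀ {P' P P'' : Type} [AddCommGroup P'] [Module R P'] [AddCommGroup P] [Module R P]
    [AddCommGroup P''] [Module R P''] {ν' : P' →ₗ[R] P'} {ν : P →ₗ[R] P} {ν'' : P'' →ₗ[R] P''}
    {j : P' →ₗ[R] P} {q : P →ₗ[R] P''}, Ex ν' ν ν'' j q → U P' ν' → U P ν →
    Module.Projective R P'' → U P'' ν''

/-- resolutions of length `d` by modules of `U` -/
def Tr {R : Type} [CommRing R] (U : Cls R) :
    ℕ → ∀ (W : Type) [AddCommGroup W] [Module R W], (W →ₗ[R] W) → Prop
  | 0, W, _, _, ν => U W ν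
  | d + 1, W, _, _, ν => ∃ (K P : Type) (_ : AddCommGroup K) (_ : Module R K)
      (_ : AddCommGroup P) (_ : Module R P) (κ : K →ₗ[R] K) (π : P →ₗ[R] P) (j : K →ₗ[R] P)
      (f : P →ₗ[R] W), Ex κ π ν j f ∧ U P π ∧ IsNilpotent π ∧ Tr U d K κ

section

variable {R : Type} [CommRing R] {U : Cls R}

lemma pow_comm {A B : Type} [AddCommGroup A] [Module R A] [AddCommGroup B] [Module R B]
    {α : A →ₗ[R] A} {β : B →ₗ[R] B} {f : A →ₗ[R] B} (h : f ∘ₗ α = β ∘ₗ f) (m : ℕ) (x : A) :
    f ((α ^ m) x) = (β ^ m) (f x) := by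
  induction m generalizing x with
  | zero => simp
  | succ m ih =>
    rw [pow_succ, pow_succ, Module.End.mul_apply, Module.End.mul_apply, ih]
    congr 1
    exact LinearMap.congr_fun h x

lemma nil_left {A B C : Type} [AddCommGroup A] [Module R A] [AddCommGroup B] [Module R B]
    [AddCommGroup C] [Module R C]
    {α : A →ₗ[R] A} {β : B →ₗ[R] B} {γ : C →ₗ[R] C} {j : A →ₗ[R] B} {q : B →ₗ[R] C}
    (h : Ex α β γ j q) (hβ : IsNilpotent β) : IsNilpotent α := by
  obtain ⟨m, hm⟩ := hβ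
  refine ⟨m, ?_⟩
  ext x
  apply h.inj
  rw [pow_comm h.cj, hm]
  simp

lemma q_j {A B C : Type} [AddCommGroup A] [Module R A] [AddCommGroup B] [Module R B]
    [AddCommGroup C] [Module R C]
    {α : A →ₗ[R] A} {β : B →ₗ[R] B} {γ : C →ₗ[R] C} {j : A →ₗ[R] B} {q : B →ₗ[R] C}
    (h : Ex α β γ j q) (x : A) : q (j x) = 0 := by
  have : j x ∈ LinearMap.ker q := by rw [← h.exa]; exact ⟨x, rfl⟩
  exact this

lemma exists_pre {A B C : Type} [AddCommGroup A] [Module R A] [AddCommGroup B] [Module R B]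
    [AddCommGroup C] [Module R C]
    {α : A →ₗ[R] A} {β : B →ₗ[R] B} {γ : C →ₗ[R] C} {j : A →ₗ[R] B} {q : B →ₗ[R] C}
    (h : Ex α β γ j q) {y : B} (hy : q y = 0) : ∃ x, j x = y := by
  have : y ∈ LinearMap.range j := by rw [h.exa]; exact hy
  exact this

/-- maps into the middle which die on the right lift to the left -/
lemma lift_left {A B C D : Type} [AddCommGroup A] [Module R A] [AddCommGroup B] [Module R B]
    [AddCommGroup C] [Module R C] [AddCommGroup D] [Module R D]
    {α : A →ₗ[R] A} {β : B →ₗ[R] B} {γ : C →ₗ[R] C} {j : A →ₗ[R] B} {q : B →ₗ[R] C}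
    (h : Ex α β γ j q) (g : D →ₗ[R] B) (hg : ∀ x, q (g x) = 0) :
    ∃ g' : D →ₗ[R] A, ∀ x, j (g' x) = g x := by
  refine ⟨(LinearEquiv.ofInjective j h.inj).symm.toLinearMap ∘ₗ
    g.codRestrict (LinearMap.range j) (fun x => by rw [h.exa]; exact hg x), fun x => ?_⟩
  have h1 := LinearEquiv.apply_symm_apply (LinearEquiv.ofInjective j h.inj)
    (g.codRestrict (LinearMap.range j) (fun x => by rw [h.exa]; exact hg x) x)
  have h2 := congrArg Subtype.val h1
  exact h2

lemma ker_stable {A B : Type} [AddCommGroup A] [Module R A] [AddCommGroup B] [Module R B]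
    {α : A →ₗ[R] A} {β : B →ₗ[R] B} {f : A →ₗ[R] B} (h : f ∘ₗ α = β ∘ₗ f) :
    ∀ x ∈ LinearMap.ker f, α x ∈ LinearMap.ker f := by
  intro x hx
  have h1 : f (α x) = β (f x) := LinearMap.congr_fun h x
  have h2 : f x = 0 := hx
  show f (α x) = 0
  rw [h1, h2, map_zero]

/-- the exact sequence of a surjection -/
lemma ex_ker {A B : Type} [AddCommGroup A] [Module R A] [AddCommGroup B] [Module R B]
    {α : A →ₗ[R] A} {β : B →ₗ[R] B} {f : A →ₗ[R] B} (h : f ∘ₗ α = β ∘ₗ f)
    (hf : Function.Surjective f) :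
    Ex (α.restrict (ker_stable h)) α β (LinearMap.ker f).subtype f where
  inj := Subtype.val_injective
  sur := hf
  exa := by simp
  cj := by ext x; rfl
  cq := h

lemma U_iso (hU : Good U) {A B : Type} [AddCommGroup A] [Module R A] [AddCommGroup B]
    [Module R B] {α : A →ₗ[R] A} {β : B →ₗ[R] B} (e : A ≃ₗ[R] B)
    (h : e.toLinearMap ∘ₗ α = β ∘ₗ e.toLinearMap) (hA : U A α) : U B β := by
  have h0 : U PUnit (0 : PUnit →ₗ[R] PUnit) := hU.zero PUnit inferInstance inferInstance
  have hex : Ex α β (0 : PUnit →ₗ[R] PUnit) e.toLinearMap (0 : B →ₗ[R] PUnit) := by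
    refine ⟨e.injective, fun x => ⟨0, rfl⟩, ?_, h, by simp⟩
    rw [LinearMap.ker_zero]
    exact LinearEquiv.range e
  exact hU.ext hex hA h0

lemma Tr_iso (hU : Good U) : ∀ (d : ℕ) {A B : Type} [AddCommGroup A] [Module R A]
    [AddCommGroup B] [Module R B] {α : A →ₗ[R] A} {β : B →ₗ[R] B} (e : A ≃ₗ[R] B)
    (_ : e.toLinearMap ∘ₗ α = β ∘ₗ e.toLinearMap) (_ : Tr U d A α), Tr U d B β
  | 0, A, B, _, _, _, _, α, β, e, h, hA => U_iso hU e h hA
  | d + 1, A, B, _, _, _, _, α, β, e, h, hA => by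
    obtain ⟨K, P, _, _, _, _, κ, π, j, f, hex, hP, hπ, hK⟩ := hA
    refine ⟨K, P, _, _, _, _, κ, π, j, e.toLinearMap ∘ₗ f, ⟨hex.inj, ?_, ?_, hex.cj, ?_⟩, hP, hπ,
      hK⟩
    · exact e.surjective.comp hex.sur
    · rw [hex.exa]
      ext x
      simp
    · rw [LinearMap.comp_assoc, hex.cq, ← LinearMap.comp_assoc, h, LinearMap.comp_assoc]

lemma mono1 (hU : Good U) : ∀ (d : ℕ) {A : Type} [AddCommGroup A] [Module R A]
    {α : A →ₗ[R] A} (_ : IsNilpotent α) (_ : Tr U d A α), Tr U (d + 1) A α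
  | 0, A, _, _, α, hn, hA => by
    refine ⟨PUnit, A, inferInstance, inferInstance, inferInstance, inferInstance,
      (0 : PUnit →ₗ[R] PUnit), α, (0 : PUnit →ₗ[R] A), LinearMap.id, ?_, hA, hn,
      hU.zero PUnit inferInstance inferInstance⟩
    refine ⟨fun x y _ => rfl, fun x => ⟨x, rfl⟩, ?_, by simp, by ext x; rfl⟩
    simp
  | d + 1, A, _, _, α, hn, hA => by
    obtain ⟨K, P, _, _, _, _, κ, π, j, f, hex, hP, hπ, hK⟩ := hA
    exact ⟨K, P, _, _, _, _, κ, π, j, f, hex, hP, hπ, mono1 hU d (nil_left hex hπ) hK⟩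

lemma mono (hU : Good U) {A : Type} [AddCommGroup A] [Module R A]
    {α : A →ₗ[R] A} (hn : IsNilpotent α) {d d' : ℕ} (hd : d ≤ d') (h : Tr U d A α) :
    Tr U d' A α := by
  induction hd with
  | refl => exact h
  | step _ ih => exact mono1 hU _ hn ih

/-- covers -/
lemma cover (hU : Good U) : ∀ (s : ℕ) (W : Type) [AddCommGroup W] [Module R W]
    [Module.Finite R W] (ν : W →ₗ[R] W), ν ^ s = 0 →
    ∃ (P : Type) (_ : AddCommGroup P) (_ : Module R P) (π : P →ₗ[R] P) (f : P →ₗ[R] W),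
      U P π ∧ IsNilpotent π ∧ Function.Surjective f ∧ f ∘ₗ π = ν ∘ₗ f
  | 0, W, _, _, _, ν, hν => by
    have hW : ∀ x : W, x = 0 := by
      intro x
      have := LinearMap.congr_fun hν x
      simpa using this
    refine ⟨PUnit, inferInstance, inferInstance, 0, 0, hU.zero PUnit inferInstance inferInstance,
      ⟨1, by simp⟩, fun x => ⟨0, by rw [hW x]; rfl⟩, by simp⟩
  | s + 1, W, _, _, _, ν, hν => by
    have hst : ∀ x ∈ LinearMap.range ν, ν x ∈ LinearMap.range ν := fun x _ => ⟨x, rfl⟩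
    have h1 : ∀ (m : ℕ) (x : LinearMap.range ν),
        (((ν.restrict hst) ^ m) x : W) = (ν ^ m) (x : W) := by
      intro m x
      exact pow_comm (f := (LinearMap.range ν).subtype) (α := ν.restrict hst) (β := ν)
        (by ext y; rfl) m x
    have h2 : (ν.restrict hst) ^ s = 0 := by
      ext x
      obtain ⟨y, hy⟩ := x.2
      rw [h1, ← hy]
      have h3 : (ν ^ s) (ν y) = (ν ^ (s + 1)) y := by
        rw [pow_succ, Module.End.mul_apply]
      rw [h3, hν]
      rfl
    have hfin : Module.Finite R (LinearMap.range ν) := inferInstance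
    obtain ⟨P1, _, _, π1, p, hP1, hn1, hp, hc⟩ := cover hU s (LinearMap.range ν)
      (ν.restrict hst) h2
    obtain ⟨r, g, hg⟩ := Module.Finite.exists_fin' R W
    obtain ⟨lam, hlam⟩ := Module.projective_lifting_property p (ν.rangeRestrict ∘ₗ g) hp
    refine ⟨(Fin r → R) × P1, inferInstance, inferInstance,
      LinearMap.prod 0 (lam.coprod π1), g.coprod ((LinearMap.range ν).subtype ∘ₗ p), ?_, ?_, ?_,
      ?_⟩
    · have hex : Ex π1 (LinearMap.prod 0 (lam.coprod π1)) (0 : (Fin r → R) →ₗ[R] (Fin r → R))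
          (LinearMap.inr R (Fin r → R) P1) (LinearMap.fst R (Fin r → R) P1) := by
        refine ⟨LinearMap.inr_injective, LinearMap.fst_surjective, ?_, ?_, ?_⟩
        · exact LinearMap.range_inr R (Fin r → R) P1
        · ext x
          · simp
          · simp
        · ext x
          · simp
          · simp
      exact hU.ext hex hP1 (hU.zero _ inferInstance inferInstance)
    · obtain ⟨m, hm⟩ := hn1
      have h4 : ∀ (c : ℕ) (x : (Fin r → R) × P1),
          ((LinearMap.prod (0 : (Fin r → R) × P1 →ₗ[R] (Fin r → R)) (lam.coprod π1)) ^ (c + 1)) x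
            = (0, (π1 ^ c) (lam x.1 + π1 x.2)) := by
        intro c
        induction c with
        | zero => intro x; simp
        | succ c ih =>
          intro x
          rw [pow_succ', Module.End.mul_apply, ih, pow_succ', Module.End.mul_apply]
          simp
      refine ⟨m + 1, ?_⟩
      apply LinearMap.ext
      intro x
      rw [h4, hm]
      rfl
    · intro x
      obtain ⟨a, ha⟩ := hg x
      exact ⟨(a, 0), by simp [ha]⟩
    · have hl : ∀ a, (p (lam a) : W) = ν (g a) := by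
        intro a
        have := LinearMap.congr_fun hlam a
        simp only [LinearMap.comp_apply] at this
        rw [this]
        rfl
      have hr : ∀ b, (p (π1 b) : W) = ν (p b) := by
        intro b
        have := LinearMap.congr_fun hc b
        simp only [LinearMap.comp_apply] at this
        rw [this]
        rfl
      apply LinearMap.ext
      rintro ⟨a, b⟩
      simp [hl, hr]

/-- (b): kernels of maps onto modules of `U` -/
lemma ker_Tr (hU : Good U) : ∀ (d : ℕ) {K Y P' : Type} [AddCommGroup K] [Module R K]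
    [AddCommGroup Y] [Module R Y] [AddCommGroup P'] [Module R P'] {κ : K →ₗ[R] K}
    {υ : Y →ₗ[R] Y} {π' : P' →ₗ[R] P'} {j : K →ₗ[R] Y} {q : Y →ₗ[R] P'} (_ : Ex κ υ π' j q)
    (_ : Tr U d Y υ) (_ : U P' π'), Tr U d K κ
  | 0, K, Y, P', _, _, _, _, _, _, κ, υ, π', j, q, h, hY, hP' => hU.ker h hY hP'
  | d + 1, K, Y, P', _, _, _, _, _, _, κ, υ, π', j, q, h, hY, hP' => by
    obtain ⟨K1, P, _, _, _, _, κ1, π, j1, f, hex, hP, hπ, hK1⟩ := hY
    have hc : (q ∘ₗ f) ∘ₗ π = π' ∘ₗ (q ∘ₗ f) := by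
      rw [LinearMap.comp_assoc, hex.cq, ← LinearMap.comp_assoc, h.cq, LinearMap.comp_assoc]
    have hexK := ex_ker hc (h.sur.comp hex.sur)
    have hPK := hU.ker hexK hP hP'
    obtain ⟨f', hf'⟩ := lift_left h (f ∘ₗ (LinearMap.ker (q ∘ₗ f)).subtype) (by
      intro x; exact x.2)
    have hj1 : ∀ x, j1 x ∈ LinearMap.ker (q ∘ₗ f) := by
      intro x
      show q (f (j1 x)) = 0
      rw [q_j hex, map_zero]
    refine ⟨K1, LinearMap.ker (q ∘ₗ f), _, _, _, _, κ1, _, j1.codRestrict _ hj1, f', ?_, hPK,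
      nil_left hexK hπ, hK1⟩
    refine ⟨?_, ?_, ?_, ?_, ?_⟩
    · intro x y hxy
      exact hex.inj (congrArg Subtype.val hxy)
    · intro y
      obtain ⟨x, hx⟩ := hex.sur (j y)
      refine ⟨⟨x, ?_⟩, ?_⟩
      · show q (f x) = 0
        rw [hx, q_j h]
      · apply h.inj
        rw [hf']
        exact hx
    · ext x
      constructor
      · rintro ⟨y, rfl⟩
        show f' _ = 0
        apply h.inj
        rw [hf', map_zero]
        exact q_j hex y
      · intro hx
        have hx' : f' x = 0 := hx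
        have h2 : f (x : P) = 0 := by
          have := hf' x
          rw [hx', map_zero] at this
          exact this.symm
        obtain ⟨y, hy⟩ := exists_pre hex h2
        exact ⟨y, Subtype.ext hy⟩
    · apply LinearMap.ext
      intro x
      apply Subtype.ext
      exact LinearMap.congr_fun hex.cj x
    · apply LinearMap.ext
      intro x
      apply h.inj
      show j (f' _) = j (κ (f' x))
      rw [hf']
      have h3 : j (κ (f' x)) = υ (j (f' x)) := LinearMap.congr_fun h.cj (f' x)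
      rw [h3, hf']
      exact LinearMap.congr_fun hex.cq (x : P)

/-- pullbacks -/
lemma pullback {K0 A K B C : Type} [AddCommGroup K0] [Module R K0] [AddCommGroup A] [Module R A]
    [AddCommGroup K] [Module R K] [AddCommGroup B] [Module R B] [AddCommGroup C] [Module R C]
    {κ0 : K0 →ₗ[R] K0} {α : A →ₗ[R] A} {κ : K →ₗ[R] K} {β : B →ₗ[R] B} {γ : C →ₗ[R] C}
    {j0 : K0 →ₗ[R] A} {f0 : A →ₗ[R] C} {j : K →ₗ[R] B} {f : B →ₗ[R] C}
    (h0 : Ex κ0 α γ j0 f0) (h : Ex κ β γ j f) (hα : IsNilpotent α) (hβ : IsNilpotent β) :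
    ∃ (X : Submodule R (A × B)) (ξ : X →ₗ[R] X) (i0 : K0 →ₗ[R] X) (i : K →ₗ[R] X)
      (q : X →ₗ[R] B) (q0 : X →ₗ[R] A), IsNilpotent ξ ∧ Ex κ0 ξ β i0 q ∧ Ex κ ξ α i q0 := by
  have hc : ∀ x, f (β x) = γ (f x) := fun x => LinearMap.congr_fun h.cq x
  have hc0 : ∀ x, f0 (α x) = γ (f0 x) := fun x => LinearMap.congr_fun h0.cq x
  have hD : (f0 ∘ₗ LinearMap.fst R A B - f ∘ₗ LinearMap.snd R A B) ∘ₗ (α.prodMap β)
      = γ ∘ₗ (f0 ∘ₗ LinearMap.fst R A B - f ∘ₗ LinearMap.snd R A B) := by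
    apply LinearMap.ext
    rintro ⟨a, b⟩
    simp [hc, hc0]
  have hmem : ∀ a b, (a, b) ∈ LinearMap.ker (f0 ∘ₗ LinearMap.fst R A B - f ∘ₗ LinearMap.snd R A B)
      ↔ f0 a = f b := by
    intro a b
    simp [sub_eq_zero]
  refine ⟨LinearMap.ker (f0 ∘ₗ LinearMap.fst R A B - f ∘ₗ LinearMap.snd R A B),
    (α.prodMap β).restrict (ker_stable hD),
    (LinearMap.inl R A B ∘ₗ j0).codRestrict _ (fun x => ?_),
    (LinearMap.inr R A B ∘ₗ j).codRestrict _ (fun x => ?_),
    LinearMap.snd R A B ∘ₗ Submodule.subtype _, LinearMap.fst R A B ∘ₗ Submodule.subtype _,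
    ?_, ?_, ?_⟩
  · show (j0 x, (0 : B)) ∈ _
    rw [hmem, q_j h0, map_zero]
  · show ((0 : A), j x) ∈ _
    rw [hmem, q_j h, map_zero]
  · obtain ⟨m, hm⟩ := hα
    obtain ⟨m', hm'⟩ := hβ
    refine ⟨m + m', ?_⟩
    have h1 : ∀ (c : ℕ) (x : A × B), ((α.prodMap β) ^ c) x = ((α ^ c) x.1, (β ^ c) x.2) := by
      intro c
      induction c with
      | zero => intro x; simp
      | succ c ih =>
        intro x
        rw [pow_succ, Module.End.mul_apply, ih, pow_succ, pow_succ, Module.End.mul_apply,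
          Module.End.mul_apply]
        rfl
    apply LinearMap.ext
    intro x
    apply Subtype.ext
    have h2 := pow_comm (f := Submodule.subtype _)
      (α := (α.prodMap β).restrict (ker_stable hD)) (β := α.prodMap β)
      (LinearMap.ext fun y => rfl)
      (m + m') x
    refine h2.trans ?_
    rw [h1, pow_add, hm, pow_add, hm', zero_mul, mul_zero]
    rfl
  · refine ⟨?_, ?_, ?_, ?_, ?_⟩
    · intro x y hxy
      exact h0.inj (congrArg (fun z : _ => (Subtype.val z).1) hxy)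
    · intro b
      obtain ⟨a, ha⟩ := h0.sur (f b)
      exact ⟨⟨(a, b), (hmem a b).2 ha⟩, rfl⟩
    · ext ⟨⟨a, b⟩, hx⟩
      constructor
      · rintro ⟨y, hy⟩
        have := congrArg (fun z : _ => (Subtype.val z).2) hy
        exact this.symm
      · intro hb
        have hb' : b = 0 := hb
        subst hb'
        rw [hmem, map_zero] at hx
        obtain ⟨y, hy⟩ := exists_pre h0 hx
        refine ⟨y, Subtype.ext ?_⟩
        show (j0 y, (0 : B)) = (a, 0)
        rw [hy]
    · apply LinearMap.ext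
      intro x
      apply Subtype.ext
      show (j0 (κ0 x), (0 : B)) = (α (j0 x), β 0)
      rw [map_zero]
      congr 1
      exact LinearMap.congr_fun h0.cj x
    · apply LinearMap.ext
      intro x
      rfl
  · refine ⟨?_, ?_, ?_, ?_, ?_⟩
    · intro x y hxy
      exact h.inj (congrArg (fun z : _ => (Subtype.val z).2) hxy)
    · intro a
      obtain ⟨b, hb⟩ := h.sur (f0 a)
      exact ⟨⟨(a, b), (hmem a b).2 hb.symm⟩, rfl⟩
    · ext ⟨⟨a, b⟩, hx⟩
      constructor
      · rintro ⟨y, hy⟩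
        have := congrArg (fun z : _ => (Subtype.val z).1) hy
        exact this.symm
      · intro ha
        have ha' : a = 0 := ha
        subst ha'
        rw [hmem, map_zero] at hx
        obtain ⟨y, hy⟩ := exists_pre h hx.symm
        refine ⟨y, Subtype.ext ?_⟩
        show ((0 : A), j y) = (0, b)
        rw [hy]
    · apply LinearMap.ext
      intro x
      apply Subtype.ext
      show ((0 : A), j (κ x)) = (α 0, β (j x))
      rw [map_zero]
      congr 1
      exact LinearMap.congr_fun h.cj x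
    · apply LinearMap.ext
      intro x
      rfl

end

section

variable {R : Type} [CommRing R] [IsNoetherianRing R] {U : Cls R}

/-- extensions -/
def EE (U : Cls R) (d : ℕ) : Prop :=
  ∀ (W' W W'' : Type) [AddCommGroup W'] [Module R W'] [AddCommGroup W] [Module R W]
    [AddCommGroup W''] [Module R W''] (ν' : W' →ₗ[R] W') (ν : W →ₗ[R] W) (ν'' : W'' →ₗ[R] W'')
    (j : W' →ₗ[R] W) (q : W →ₗ[R] W''), Ex ν' ν ν'' j q → Module.Finite R W → IsNilpotent ν →
    Tr U d W' ν' → Tr U d W'' ν'' → Tr U d W ν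

/-- (a) -/
lemma any_cover (hU : Good U) (d : ℕ) (hE : EE U d) {K P W : Type} [AddCommGroup K]
    [Module R K] [AddCommGroup P] [Module R P] [AddCommGroup W] [Module R W] {κ : K →ₗ[R] K}
    {π : P →ₗ[R] P} {ν : W →ₗ[R] W} {j : K →ₗ[R] P} {f : P →ₗ[R] W} (h : Ex κ π ν j f)
    (hP : U P π) (hπ : IsNilpotent π) (hW : Tr U (d + 1) W ν) : Tr U d K κ := by
  obtain ⟨K0, P0, _, _, _, _, κ0, π0, j0, f0, hex, hP0, hπ0, hK0⟩ := hW
  obtain ⟨X, ξ, i0, i, q, q0, hξ, hX, hX0⟩ := pullback hex h hπ0 hπ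
  have := (hU.fp hP).1
  have := (hU.fp hP0).1
  have hfin : Module.Finite R X := inferInstance
  have h1 : Tr U d X ξ := hE _ _ _ _ _ _ _ _ hX hfin hξ hK0 (mono hU hπ (Nat.zero_le d) hP)
  exact ker_Tr hU d hX0 h1 hP0

lemma ext_Tr (hU : Good U) : ∀ d, EE U d
  | 0 => by
    intro W' W W'' _ _ _ _ _ _ ν' ν ν'' j q h _ _ h1 h2
    exact hU.ext h h1 h2
  | d + 1 => by
    intro W' W W'' _ _ _ _ _ _ ν' ν ν'' j q h hfin hn h1 h2
    have hE := ext_Tr hU d
    obtain ⟨s, hs⟩ := hn
    obtain ⟨P, _, _, π, f, hP, hπ, hf, hc⟩ := cover hU s W ν hs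
    have hexK := ex_ker hc hf
    have hc2 : (q ∘ₗ f) ∘ₗ π = ν'' ∘ₗ (q ∘ₗ f) := by
      rw [LinearMap.comp_assoc, hc, ← LinearMap.comp_assoc, h.cq, LinearMap.comp_assoc]
    have hexL := ex_ker hc2 (h.sur.comp hf)
    have hL := any_cover hU d hE hexL hP hπ h2
    obtain ⟨s', hs'⟩ := nil_left h ⟨s, hs⟩
    have : Module.Finite R W' := Module.Finite.of_injective j h.inj
    obtain ⟨P1, _, _, π1, p, hP1, hπ1, hp, hcp⟩ := cover hU s' W' ν' hs'
    have hexK1 := ex_ker hcp hp
    have hK1 := any_cover hU d hE hexK1 hP1 hπ1 h1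
    obtain ⟨r, hr⟩ := lift_left h (f ∘ₗ (LinearMap.ker (q ∘ₗ f)).subtype) (fun x => x.2)
    have hjL : ∀ x : LinearMap.ker f, (x : P) ∈ LinearMap.ker (q ∘ₗ f) := by
      intro x
      show q (f x) = 0
      have : f x = 0 := x.2
      rw [this, map_zero]
    have hexr : Ex (π.restrict (ker_stable hc)) (π.restrict (ker_stable hc2)) ν'
        ((LinearMap.ker f).subtype.codRestrict _ hjL) r := by
      refine ⟨?_, ?_, ?_, ?_, ?_⟩
      · intro x y hxy
        have h7 := congrArg (Subtype.val (p := fun z => z ∈ LinearMap.ker (q ∘ₗ f))) hxy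
        exact Subtype.ext h7
      · intro y
        obtain ⟨x, hx⟩ := hf (j y)
        refine ⟨⟨x, ?_⟩, ?_⟩
        · show q (f x) = 0
          rw [hx, q_j h]
        · apply h.inj
          rw [hr]
          exact hx
      · ext x
        constructor
        · rintro ⟨y, rfl⟩
          show r _ = 0
          apply h.inj
          rw [hr, map_zero]
          exact y.2
        · intro hx
          have hx' : r x = 0 := hx
          have h3 : f (x : P) = 0 := by
            have := hr x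
            rw [hx', map_zero] at this
            exact this.symm
          exact ⟨⟨x, h3⟩, Subtype.ext rfl⟩
      · rfl
      · apply LinearMap.ext
        intro x
        apply h.inj
        show j (r _) = j (ν' (r x))
        rw [hr]
        have h4 : j (ν' (r x)) = ν (j (r x)) := LinearMap.congr_fun h.cj (r x)
        rw [h4, hr]
        exact LinearMap.congr_fun hc (x : P)
    obtain ⟨Y, υ, i0, i, qY, q0, hυ, hY, hY0⟩ := pullback hexK1 hexr hπ1
      (nil_left hexL hπ)
    have := (hU.fp hP).1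
    have := (hU.fp hP1).1
    have hfinY : Module.Finite R Y := inferInstance
    have h5 : Tr U d Y υ := hE _ _ _ _ _ _ _ _ hY hfinY hυ hK1 hL
    have h6 := ker_Tr hU d hY0 h5 hP1
    exact ⟨_, P, _, _, _, _, _, π, _, f, hexK, hP, hπ, h6⟩

lemma proj_Tr (hU : Good U) : ∀ (d : ℕ) (V : Type) [AddCommGroup V] [Module R V]
    (ν : V →ₗ[R] V) (_ : Module.Finite R V) (_ : Module.Projective R V) (_ : Tr U d V ν), U V ν
  | 0, V, _, _, ν, _, _, h => h
  | d + 1, V, _, _, ν, hfin, hpr, h => by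
    obtain ⟨K, P, _, _, _, _, κ, π, j, f, hex, hP, hπ, hK⟩ := h
    obtain ⟨s, hs⟩ := Module.projective_lifting_property f LinearMap.id hex.sur
    have hs' : ∀ x, f (s x) = x := fun x => LinearMap.congr_fun hs x
    obtain ⟨ρ, hρ⟩ := lift_left hex (LinearMap.id - s ∘ₗ f) (by
      intro x
      simp [hs'])
    have hρj : ρ ∘ₗ j = LinearMap.id := by
      apply LinearMap.ext
      intro x
      apply hex.inj
      show j (ρ (j x)) = j x
      rw [hρ]
      simp [q_j hex]
    have := (hU.fp hP).1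
    have := (hU.fp hP).2
    have h1 : Module.Projective R K := Module.Projective.of_split j ρ hρj
    have h2 : Module.Finite R K := by
      apply Module.Finite.of_surjective ρ
      intro x
      exact ⟨j x, LinearMap.congr_fun hρj x⟩
    exact hU.coker hex (proj_Tr hU d K κ h2 h1 hK) hP hpr

lemma zero_Tr (hU : Good U) : ∀ (d : ℕ) (W : Type) [AddCommGroup W] [Module R W]
    (_ : Module.Finite R W) (_ : PD R d W), Tr U d W (0 : W →ₗ[R] W)
  | 0, W, _, _, hfin, h => hU.zero W hfin h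
  | d + 1, W, _, _, hfin, h => by
    obtain ⟨P, _, _, f, hPf, hPp, hf, hK⟩ := h
    have hfinK : Module.Finite R (LinearMap.ker f) := inferInstance
    refine ⟨LinearMap.ker f, P, _, _, _, _, 0, 0, (LinearMap.ker f).subtype, f, ?_,
      hU.zero P hPf hPp, ⟨1, by simp⟩, zero_Tr hU d _ hfinK hK⟩
    exact ⟨Subtype.val_injective, hf, by simp, by simp, by simp⟩

lemma all_Tr (hPD : ∀ (W : Type) [AddCommGroup W] [Module R W], Module.Finite R W →
    ∃ d, PD R d W) (hU : Good U) : ∀ (s : ℕ) (W : Type) [AddCommGroup W] [Module R W]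
    (ν : W →ₗ[R] W) (_ : Module.Finite R W) (_ : ν ^ s = 0), ∃ d, Tr U d W ν
  | 0, W, _, _, ν, hfin, hν => by
    have hW : ∀ x : W, x = 0 := by
      intro x
      have := LinearMap.congr_fun hν x
      simpa using this
    have h0 : ν = 0 := by
      apply LinearMap.ext
      intro x
      rw [hW x]
      simp
    obtain ⟨d, hd⟩ := hPD W hfin
    exact ⟨d, by rw [h0]; exact zero_Tr hU d W hfin hd⟩
  | s + 1, W, _, _, ν, hfin, hν => by
    have hst : ∀ x ∈ LinearMap.range ν, ν x ∈ LinearMap.range ν := fun x _ => ⟨x, rfl⟩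
    have h1 : ∀ (m : ℕ) (x : LinearMap.range ν),
        (((ν.restrict hst) ^ m) x : W) = (ν ^ m) (x : W) := by
      intro m x
      exact pow_comm (f := (LinearMap.range ν).subtype) (α := ν.restrict hst) (β := ν)
        (by ext y; rfl) m x
    have h2 : (ν.restrict hst) ^ s = 0 := by
      ext x
      obtain ⟨y, hy⟩ := x.2
      rw [h1, ← hy]
      have h3 : (ν ^ s) (ν y) = (ν ^ (s + 1)) y := by
        rw [pow_succ, Module.End.mul_apply]
      rw [h3, hν]
      rfl
    have hfin1 : Module.Finite R (LinearMap.range ν) := inferInstance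
    obtain ⟨d1, hd1⟩ := all_Tr hPD hU s (LinearMap.range ν) (ν.restrict hst) hfin1 h2
    have hfin2 : Module.Finite R (W ⧸ LinearMap.range ν) := inferInstance
    obtain ⟨d2, hd2⟩ := hPD (W ⧸ LinearMap.range ν) hfin2
    have h4 := zero_Tr hU d2 _ hfin2 hd2
    have hex : Ex (ν.restrict hst) ν (0 : (W ⧸ LinearMap.range ν) →ₗ[R] (W ⧸ LinearMap.range ν))
        (LinearMap.range ν).subtype (LinearMap.range ν).mkQ := by
      refine ⟨Subtype.val_injective, Submodule.mkQ_surjective _, by simp, by ext x; rfl, ?_⟩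
      apply LinearMap.ext
      intro x
      simp
    refine ⟨max d1 d2, ext_Tr hU _ _ _ _ _ _ _ _ _ hex hfin ⟨s + 1, hν⟩ ?_ ?_⟩
    · exact mono hU ⟨s, h2⟩ (le_max_left _ _) hd1
    · exact mono hU ⟨1, by simp⟩ (le_max_right _ _) h4

end

end DEV_

open DEV_

/-- DEV -/
theorem stmt_DEV : Stmt_DEV := by
  intro R _ _ hPD U hfp hz h3 P _ _ ν hfin hpr hn
  have hU : Good (R := R) U := by
    refine ⟨?_, ?_, ?_, ?_, ?_⟩
    · intro P _ _ ν h; exact hfp P ν h
    · intro P _ _ h h'; exact hz P h h'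
    · intro P' P P'' _ _ _ _ _ _ ν' ν ν'' j q h; exact (h3 _ _ _ _ _ _ j q h).1
    · intro P' P P'' _ _ _ _ _ _ ν' ν ν'' j q h; exact (h3 _ _ _ _ _ _ j q h).2.1
    · intro P' P P'' _ _ _ _ _ _ ν' ν ν'' j q h; exact (h3 _ _ _ _ _ _ j q h).2.2
  obtain ⟨s, hs⟩ := hn
  obtain ⟨d, hd⟩ := all_Tr hPD hU s P ν hfin hs
  exact proj_Tr hU d P ν hfin hpr hd

end Pool.AM
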