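import Pool.Agent.Work.MP_91aed7_am.Interface

/-! EL1: elementary matrices. -/

set_option autoImplicit false

namespace Pool.AM

namespace EL1_

variable {ι κ : Type} [Fintype ι] [DecidableEq ι] [Fintype κ] [DecidableEq κ] {A : Type}
  [CommRing A]

lemma tr_mem {i j : ι} (c : A) (h : i ≠ j) : Matrix.transvection i j c ∈ EL ι A :=
  Submonoid.subset_closure ⟨i, j, c, h, rfl⟩

lemma ind {P : Matrix ι ι A → Prop} (h1 : P 1) (ht : ∀ i j c, i ≠ j → P (Matrix.transvection i j c))
    (hm : ∀ M N, P M → P N → P (M * N)) {M : Matrix ι ι A} (hM : M ∈ EL ι A) : P M := by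
  induction hM using Submonoid.closure_induction with
  | mem x hx =>
    obtain ⟨i, j, c, h, rfl⟩ := hx
    exact ht i j c h
  | one => exact h1
  | mul x y _ _ hx hy => exact hm x y hx hy

lemma reindex_tr (e : ι ≃ κ) (i j : ι) (c : A) :
    Matrix.reindex e e (Matrix.transvection i j c) = Matrix.transvection (e i) (e j) c := by
  ext a b
  simp [Matrix.transvection, Matrix.one_apply, Matrix.single_apply, Equiv.eq_symm_apply]

lemma reindex_mem (e : ι ≃ κ) {M : Matrix ι ι A} (hM : M ∈ EL ι A) :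
    Matrix.reindex e e M ∈ EL κ A := by
  refine ind (P := fun M => Matrix.reindex e e M ∈ EL κ A) ?_ ?_ ?_ hM
  · have : Matrix.reindex e e (1 : Matrix ι ι A) = 1 := by simp
    rw [this]; exact one_mem _
  · intro i j c h
    rw [reindex_tr]
    exact tr_mem c (fun h' => h (e.injective h'))
  · intro M N hM hN
    have : Matrix.reindex e e (M * N) = Matrix.reindex e e M * Matrix.reindex e e N := by
      simp [Matrix.submatrix_mul_equiv]
    rw [this]
    exact mul_mem hM hN

lemma blockL_mem {M : Matrix ι ι A} (hM : M ∈ EL ι A) :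
    Matrix.fromBlocks M 0 0 (1 : Matrix κ κ A) ∈ EL (ι ⊕ κ) A := by
  refine ind (P := fun M => Matrix.fromBlocks M 0 0 (1 : Matrix κ κ A) ∈ EL (ι ⊕ κ) A)
    ?_ ?_ ?_ hM
  · rw [Matrix.fromBlocks_one]; exact one_mem _
  · intro i j c h
    have : Matrix.fromBlocks (Matrix.transvection i j c) 0 0 (1 : Matrix κ κ A)
        = Matrix.transvection (Sum.inl i) (Sum.inl j) c := by
      ext (a | a) (b | b) <;>
        simp [Matrix.transvection, Matrix.one_apply, Matrix.single_apply]
    rw [this]
    exact tr_mem c (fun h' => h (Sum.inl_injective h'))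
  · intro M N hM hN
    have : Matrix.fromBlocks (M * N) 0 0 (1 : Matrix κ κ A)
        = Matrix.fromBlocks M 0 0 (1 : Matrix κ κ A) * Matrix.fromBlocks N 0 0 1 := by
      rw [Matrix.fromBlocks_multiply]; simp
    rw [this]
    exact mul_mem hM hN

lemma blockR_mem {M : Matrix κ κ A} (hM : M ∈ EL κ A) :
    Matrix.fromBlocks (1 : Matrix ι ι A) 0 0 M ∈ EL (ι ⊕ κ) A := by
  refine ind (P := fun M => Matrix.fromBlocks (1 : Matrix ι ι A) 0 0 M ∈ EL (ι ⊕ κ) A)
    ?_ ?_ ?_ hM
  · rw [Matrix.fromBlocks_one]; exact one_mem _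
  · intro i j c h
    have : Matrix.fromBlocks (1 : Matrix ι ι A) 0 0 (Matrix.transvection i j c)
        = Matrix.transvection (Sum.inr i) (Sum.inr j) c := by
      ext (a | a) (b | b) <;>
        simp [Matrix.transvection, Matrix.one_apply, Matrix.single_apply]
    rw [this]
    exact tr_mem c (fun h' => h (Sum.inr_injective h'))
  · intro M N hM hN
    have : Matrix.fromBlocks (1 : Matrix ι ι A) 0 0 (M * N)
        = Matrix.fromBlocks (1 : Matrix ι ι A) 0 0 M * Matrix.fromBlocks 1 0 0 N := by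
      rw [Matrix.fromBlocks_multiply]; simp
    rw [this]
    exact mul_mem hM hN

lemma upper_mem (B : Matrix ι κ A) :
    Matrix.fromBlocks (1 : Matrix ι ι A) B 0 (1 : Matrix κ κ A) ∈ EL (ι ⊕ κ) A := by
  refine Matrix.induction_on' (P := fun B => Matrix.fromBlocks (1 : Matrix ι ι A) B 0
    (1 : Matrix κ κ A) ∈ EL (ι ⊕ κ) A) B ?_ ?_ ?_
  · rw [Matrix.fromBlocks_one]; exact one_mem _
  · intro p q hp hq
    have : Matrix.fromBlocks (1 : Matrix ι ι A) (p + q) 0 (1 : Matrix κ κ A)
        = Matrix.fromBlocks (1 : Matrix ι ι A) p 0 (1 : Matrix κ κ A)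
          * Matrix.fromBlocks (1 : Matrix ι ι A) q 0 (1 : Matrix κ κ A) := by
      rw [Matrix.fromBlocks_multiply]; simp [add_comm]
    rw [this]
    exact mul_mem hp hq
  · intro i j x
    have : Matrix.fromBlocks (1 : Matrix ι ι A) (Matrix.single i j x) 0 (1 : Matrix κ κ A)
        = Matrix.transvection (Sum.inl i) (Sum.inr j) x := by
      ext (a | a) (b | b) <;>
        simp [Matrix.transvection, Matrix.one_apply, Matrix.single_apply]
    rw [this]
    exact tr_mem x (by simp)

lemma lower_mem (C : Matrix κ ι A) :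
    Matrix.fromBlocks (1 : Matrix ι ι A) 0 C (1 : Matrix κ κ A) ∈ EL (ι ⊕ κ) A := by
  refine Matrix.induction_on' (P := fun C => Matrix.fromBlocks (1 : Matrix ι ι A) 0 C
    (1 : Matrix κ κ A) ∈ EL (ι ⊕ κ) A) C ?_ ?_ ?_
  · rw [Matrix.fromBlocks_one]; exact one_mem _
  · intro p q hp hq
    have : Matrix.fromBlocks (1 : Matrix ι ι A) 0 (p + q) (1 : Matrix κ κ A)
        = Matrix.fromBlocks (1 : Matrix ι ι A) 0 p (1 : Matrix κ κ A)
          * Matrix.fromBlocks (1 : Matrix ι ι A) 0 q (1 : Matrix κ κ A) := by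
      rw [Matrix.fromBlocks_multiply]; simp
    rw [this]
    exact mul_mem hp hq
  · intro i j x
    have : Matrix.fromBlocks (1 : Matrix ι ι A) 0 (Matrix.single i j x) (1 : Matrix κ κ A)
        = Matrix.transvection (Sum.inr i) (Sum.inl j) x := by
      ext (a | a) (b | b) <;>
        simp [Matrix.transvection, Matrix.one_apply, Matrix.single_apply]
    rw [this]
    exact tr_mem x (by simp)

lemma inv_mem {M : Matrix ι ι A} (hM : M ∈ EL ι A) :
    M.det = 1 ∧ ∃ M' ∈ EL ι A, M * M' = 1 ∧ M' * M = 1 := by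
  refine ind (P := fun M => M.det = 1 ∧ ∃ M' ∈ EL ι A, M * M' = 1 ∧ M' * M = 1) ?_ ?_ ?_ hM
  · exact ⟨Matrix.det_one, 1, one_mem _, by simp, by simp⟩
  · intro i j c h
    refine ⟨Matrix.det_transvection_of_ne i j h c, Matrix.transvection i j (-c), tr_mem _ h,
      ?_, ?_⟩
    · rw [Matrix.transvection_mul_transvection_same i j h]; simp
    · rw [Matrix.transvection_mul_transvection_same i j h]; simp
  · rintro M N ⟨hM, M', hM', h1, h2⟩ ⟨hN, N', hN', h3, h4⟩
    refine ⟨by rw [Matrix.det_mul, hM, hN, one_mul], N' * M', mul_mem hN' hM', ?_, ?_⟩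
    · calc M * N * (N' * M') = M * (N * N') * M' := by simp only [Matrix.mul_assoc]
        _ = 1 := by rw [h3, Matrix.mul_one, h1]
    · calc N' * M' * (M * N) = N' * (M' * M) * N := by simp only [Matrix.mul_assoc]
        _ = 1 := by rw [h2, Matrix.mul_one, h4]

lemma map_mem {B : Type} [CommRing B] (f : A →+* B) {M : Matrix ι ι A} (hM : M ∈ EL ι A) :
    M.map f ∈ EL ι B := by
  refine ind (P := fun M => M.map f ∈ EL ι B) ?_ ?_ ?_ hM
  · have : (1 : Matrix ι ι A).map f = 1 := by simp
    rw [this]; exact one_mem _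
  · intro i j c h
    have : (Matrix.transvection i j c).map f = Matrix.transvection i j (f c) := by
      ext a b
      simp only [Matrix.transvection, Matrix.map_apply, Matrix.add_apply, Matrix.one_apply,
        Matrix.single_apply, map_add]
      split_ifs <;> simp
    rw [this]
    exact tr_mem _ h
  · intro M N hM hN
    rw [Matrix.map_mul]
    exact mul_mem hM hN

end EL1_

open EL1_

/-- EL1 -/
theorem stmt_EL1 : Stmt_EL1 := by
  intro ι κ _ _ _ _ A _
  exact ⟨fun e M hM => reindex_mem e hM, fun M hM => blockL_mem hM, fun M hM => blockR_mem hM,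
    upper_mem, lower_mem, fun M hM => inv_mem hM, fun B _ f M hM => map_mem f hM⟩

end Pool.AM
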