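import Pool.Agent.Work.MP_91aed7_am.Interface

/-! EL2: Whitehead's lemma. -/

set_option autoImplicit false

namespace Pool.AM

/-- EL2 -/
theorem stmt_EL2 (h1 : Stmt_EL1) : Stmt_EL2 := by
  intro ι _ _ A _ g h hgh
  obtain ⟨-, -, -, hU, hL, -, -⟩ := h1 ι ι A
  have hhg : h * g = 1 := mul_eq_one_comm.1 hgh
  have e1 : Matrix.fromBlocks g 0 0 h
      = Matrix.fromBlocks (1 : Matrix ι ι A) g 0 1 * Matrix.fromBlocks (1 : Matrix ι ι A) 0 (-h) 1
        * Matrix.fromBlocks (1 : Matrix ι ι A) g 0 1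
        * (Matrix.fromBlocks (1 : Matrix ι ι A) (-1) 0 1
          * Matrix.fromBlocks (1 : Matrix ι ι A) 0 1 1
          * Matrix.fromBlocks (1 : Matrix ι ι A) (-1) 0 1) := by
    simp [Matrix.fromBlocks_multiply, hgh, hhg]
  rw [e1]
  exact mul_mem (mul_mem (mul_mem (hU g) (hL (-h))) (hU g))
    (mul_mem (mul_mem (hU (-1)) (hL 1)) (hU (-1)))

end Pool.AM
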