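import Pool.Agent.Work.MP_91aed7_am.Interface

/-! FIN: assembly. -/

set_option autoImplicit false

open Finset

namespace Pool.AM

namespace FIN_

variable {k : Type} [Field k] {n : ℕ}

lemma emb_castAdd (n l : ℕ) (i : Fin n) : emb n l (Fin.castAdd l i) = Sum.inl i := by
  unfold emb
  rw [Fin.addCases_left]

lemma emb_natAdd (n l : ℕ) (j : Fin l) : emb n l (Fin.natAdd n j) = Sum.inr (j : ℕ) := by
  unfold emb
  rw [Fin.addCases_right]

lemma emb_inj (n l : ℕ) : Function.Injective (emb n l) := by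
  intro a b
  refine Fin.addCases (fun i => ?_) (fun j => ?_) a
  · refine Fin.addCases (fun i' => ?_) (fun j' => ?_) b
    · rw [emb_castAdd, emb_castAdd]
      intro h
      rw [Sum.inl_injective h]
    · rw [emb_castAdd, emb_natAdd]
      intro h
      cases h
  · refine Fin.addCases (fun i' => ?_) (fun j' => ?_) b
    · rw [emb_natAdd, emb_castAdd]
      intro h
      cases h
    · rw [emb_natAdd, emb_natAdd]
      intro h
      rw [Fin.ext (Sum.inr_injective h)]

lemma ydeg_map (n l : ℕ) (d : Fin (n + l) →₀ ℕ) :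
    ydeg (d.mapDomain (emb n l)) = ∑ j : Fin l, d (Fin.natAdd n j) := by
  unfold ydeg
  rw [Finsupp.sum_mapDomain_index (by simp) (by intro v a b; ring)]
  rw [Finsupp.sum_fintype _ _ (by simp), Fin.sum_univ_add]
  simp [emb_castAdd, emb_natAdd, wt]

/-- the ideal generated by the last `l` variables -/
noncomputable def Iy (k : Type) [Field k] (n l : ℕ) : Ideal (MvPolynomial (Fin (n + l)) k) :=
  Ideal.span (Set.range fun j : Fin l => (MvPolynomial.X (Fin.natAdd n j) :
            MvPolynomial (Fin (n + l)) k))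

lemma prod_mem (l : ℕ) (e : Fin l → ℕ) (s : Finset (Fin l)) :
    ∏ j ∈ s, (MvPolynomial.X (Fin.natAdd n j) : MvPolynomial (Fin (n + l)) k) ^ e j
      ∈ Iy k n l ^ (∑ j ∈ s, e j) := by
  classical
  induction s using Finset.induction_on with
  | empty => simp
  | insert a s ha ih =>
    rw [Finset.prod_insert ha, Finset.sum_insert ha, pow_add]
    apply Ideal.mul_mem_mul _ ih
    apply Ideal.pow_mem_pow
    exact Ideal.subset_span ⟨a, rfl⟩

lemma mem_pow_of (l m w : ℕ) (hm : m ≤ w) (f : MvPolynomial (Fin (n + l)) k)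
    (hf : MvPolynomial.rename (emb n l) f ∈ J k n w) : f ∈ Iy k n l ^ m := by
  rw [f.as_sum]
  apply Ideal.sum_mem
  intro d hd
  have h1 : d.mapDomain (emb n l) ∈ (MvPolynomial.rename (emb n l) f).support := by
    rw [MvPolynomial.mem_support_iff, MvPolynomial.coeff_rename_mapDomain _ (emb_inj n l)]
    exact MvPolynomial.mem_support_iff.1 hd
  have h2 : w ≤ ydeg (d.mapDomain (emb n l)) := hf _ h1
  rw [ydeg_map] at h2
  have h3 : MvPolynomial.monomial d (MvPolynomial.coeff d f)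
      = (MvPolynomial.C (MvPolynomial.coeff d f)
          * ∏ i : Fin n, (MvPolynomial.X (Fin.castAdd l i) : MvPolynomial (Fin (n + l)) k)
            ^ d (Fin.castAdd l i))
        * ∏ j : Fin l, (MvPolynomial.X (Fin.natAdd n j) : MvPolynomial (Fin (n + l)) k)
            ^ d (Fin.natAdd n j) := by
    rw [MvPolynomial.monomial_eq, Finsupp.prod_fintype _ _ (by simp), Fin.prod_univ_add, mul_assoc]
  rw [h3]
  apply Ideal.mul_mem_left
  exact Ideal.pow_le_pow_right (le_trans hm h2) (prod_mem l _ Finset.univ)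

end FIN_

open FIN_

/-- FIN -/
theorem stmt_FIN (hJ : Stmt_J) (_hLV : Stmt_LV) (hFL : Stmt_FLL) (hS : Stmt_STEP)
    (hSt : Stmt_START) (hE : Stmt_EXT) (hD : Stmt_DSC) : Stmt_FIN := by
  intro k _ n φ m
  have J' := hJ k n
  have L' := hFL k n
  obtain ⟨Φ, hΦ, hΦs, hΦL⟩ := hE k n φ
  -- all levels
  have lev : ∀ w, 1 ≤ w → ∃ θ : PS k n ≃ₐ[k] PS k n, (∃ L, FL L θ) ∧ Lvl w θ ∧
      Φ * θ ∈ Tm k (Vr n) := by
    intro w hw
    induction w, hw using Nat.le_induction with
    | base => exact hSt k n φ Φ hΦ hΦs hΦL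
    | succ w hw ih =>
      obtain ⟨θ, ⟨L, hL⟩, hθ, hT⟩ := ih
      obtain ⟨τ, hτ, hlev⟩ := hS k n L w θ hw hL hθ
      obtain ⟨M, hM⟩ := L'.tame τ hτ
      refine ⟨θ * τ⁻¹, ⟨max L M, ?_⟩, hlev, ?_⟩
      · exact L'.mul (L'.mono (le_max_left _ _) hL) (L'.inv (L'.mono (le_max_right _ _) hM))
      · rw [← mul_assoc]
        exact mul_mem hT (inv_mem hτ)
  obtain ⟨θ, -, hθ, hT⟩ := lev (max m 1) (le_max_right _ _)
  have hpres : ∀ v, (Φ : PS k n →ₐ[k] PS k n) (MvPolynomial.X v) ∈ J k n (wt v) := by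
    intro v
    rcases v with i | j
    · exact J'.zero _
    · have h1 : (Φ : PS k n →ₐ[k] PS k n) (MvPolynomial.X (Sum.inr j))
          = MvPolynomial.X (Sum.inr j) := hΦ.2 j
      rw [h1]
      exact J'.X_mem _
  have hdiff : ∀ v, (Φ * θ) (MvPolynomial.X v) - Φ (MvPolynomial.X v) ∈ J k n (max m 1) := by
    intro v
    have h1 : (Φ * θ) (MvPolynomial.X v) - Φ (MvPolynomial.X v)
        = (Φ : PS k n →ₐ[k] PS k n) (θ (MvPolynomial.X v) - MvPolynomial.X v) := by
      rw [map_sub]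
      rfl
    rw [h1]
    exact J'.pres _ hpres (J'.mono (Nat.le_add_right _ _) (hθ v))
  obtain ⟨L₀, hL₀⟩ := hD k n (Φ * θ) hT
  refine ⟨L₀, fun l hl => ?_⟩
  obtain ⟨τ', hτ', hr⟩ := hL₀ l hl
  refine ⟨τ', hτ', fun i => ?_, fun j => ?_⟩
  · apply mem_pow_of l m (max m 1) (le_max_left _ _)
    rw [map_sub, hr, emb_castAdd, MvPolynomial.rename_rename]
    have h1 : (emb n l ∘ Fin.castAdd l) = Sum.inl := by
      funext i
      exact emb_castAdd n l i
    rw [h1, ← hΦ.1 i]
    exact hdiff _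
  · apply mem_pow_of l m (max m 1) (le_max_left _ _)
    rw [map_sub, hr, emb_natAdd, MvPolynomial.rename_X, emb_natAdd]
    have h1 := hdiff (Sum.inr (j : ℕ))
    rwa [hΦ.2] at h1

end Pool.AM
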