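import Pool.Agent.Work.MP_91aed7_am_helper22.GD
import Pool.Agent.Work.MP_91aed7_am_helper22.TL
import Pool.Agent.Work.MP_91aed7_am_helper27.J
import Pool.Agent.Work.MP_91aed7_am_helper27.SE
import Pool.Agent.Work.MP_91aed7_am_helper29.DSC
import Pool.Agent.Work.MP_91aed7_am_helper29.LIN
import Pool.Agent.Work.MP_91aed7_am_helper30.DIV
import Pool.Agent.Work.MP_91aed7_am_helper30.LV
import Pool.Agent.Work.MP_91aed7_am_helper4.JAC
import Pool.Agent.Work.MP_91aed7_am_helper4.PDR
import Pool.Agent.Work.MP_91aed7_am_helper51.HIG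
import Pool.Agent.Work.MP_91aed7_am_helper51.RA
import Pool.Agent.Work.MP_91aed7_am_helper51.STEP
import Pool.Agent.Work.MP_91aed7_am_helper53.RK
import Pool.Agent.Work.MP_91aed7_am_helper53.RKK
import Pool.Agent.Work.MP_91aed7_am_helper54.DEV
import Pool.Agent.Work.MP_91aed7_am_helper54.EL1
import Pool.Agent.Work.MP_91aed7_am_helper54.EL2
import Pool.Agent.Work.MP_91aed7_am_helper54.FIN
import Pool.Agent.Work.MP_91aed7_am_helper60.FLD
import Pool.Agent.Work.MP_91aed7_am_helper60.FLL
import Pool.Agent.Work.MP_91aed7_am_helper69.NLP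
import Pool.Agent.Work.MP_91aed7_am_helper70.RP
import Pool.Agent.Work.MP_91aed7_am_helper70.START
import Pool.Agent.Work.MP_91aed7_am_helper70.SUS
import Pool.Agent.Work.MP_91aed7_am_helper74.EXT
import Pool.Agent.Work.MP_91aed7_am_helper74.NIL

/-! Assembly of the theorem. -/

set_option autoImplicit false

namespace Pool.AM

theorem main_SE : Stmt_SE := stmt_SE stmt_EL1 (stmt_EL2 stmt_EL1)
theorem main_TL : Stmt_TL := stmt_TL main_SE
theorem main_PDR : Stmt_PDR := stmt_PDR stmt_GD
theorem main_NIL : Stmt_NIL := stmt_NIL main_SE main_TL stmt_DEV main_PDR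
theorem main_HIG : Stmt_HIG := stmt_HIG stmt_EL1

/-- stable Suslin theorem -/
theorem main_SUS : Stmt_SUS := stmt_SUS main_SE main_NIL stmt_NLP main_HIG stmt_FLD

theorem main_LV : Stmt_LV := stmt_LV stmt_J
theorem main_RA : Stmt_RA := stmt_RA stmt_J main_LV
theorem main_RK : Stmt_RK := stmt_RK stmt_J main_LV main_RA
theorem main_RP : Stmt_RP := stmt_RP stmt_J main_RA main_RK
theorem main_RKK : Stmt_RKK := stmt_RKK stmt_J main_RA main_RK main_RP
theorem main_DIV : Stmt_DIV := stmt_DIV stmt_J stmt_JAC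
theorem main_STEP : Stmt_STEP := stmt_STEP stmt_J main_LV main_RA main_RKK main_DIV
theorem main_LIN : Stmt_LIN := stmt_LIN stmt_J
theorem main_START : Stmt_START :=
  stmt_START main_SUS main_LIN stmt_JAC stmt_J main_LV stmt_FLL

/-- stably tame to all orders -/
theorem main_FIN : Stmt_FIN :=
  stmt_FIN stmt_J main_LV stmt_FLL main_STEP main_START stmt_EXT stmt_DSC

end Pool.AM
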